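import Pool.Agent.Helper16.Cusp.F0

/-! The starting quartic has three cusps and the tangencies with the four lines. -/

namespace Pool.Agent.Helper16.Cusp

open MvPolynomial

theorem key0 (d a b z : ℂ) (hd : d ^ 3 = 25) :
    (144)*(z^4) + (-1104)*((b + ((22/27) + (8/27)*d + (4/27)*d^2)*z)*z^3) + (1012)*((b + ((22/27) + (8/27)*d + (4/27)*d^2)*z)^2*z^2) + (-328)*((b + ((22/27) + (8/27)*d + (4/27)*d^2)*z)^3*z) + (36)*((b + ((22/27) + (8/27)*d + (4/27)*d^2)*z)^4) + (624)*((a - ((-2/11) + (-6/55)*d + (3/55)*d^2)*b + ((-2/27) + (-4/27)*d + (8/135)*d^2)*z)*z^3) + (-1424)*((a - ((-2/11) + (-6/55)*d + (3/55)*d^2)*b + ((-2/27) + (-4/27)*d + (8/135)*d^2)*z)*(b + ((22/27) + (8/27)*d + (4/27)*d^2)*z)*z^2) + (516)*((a - ((-2/11) + (-6/55)*d + (3/55)*d^2)*b + ((-2/27) + (-4/27)*d + (8/135)*d^2)*z)*(b + ((22/27) + (8/27)*d + (4/27)*d^2)*z)^2*z) + (-36)*((a - ((-2/11) + (-6/55)*d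 + (3/55)*d^2)*b + ((-2/27) + (-4/27)*d + (8/135)*d^2)*z)*(b + ((22/27) + (8/27)*d + (4/27)*d^2)*z)^3) + (1204)*((a - ((-2/11) + (-6/55)*d + (3/55)*d^2)*b + ((-2/27) + (-4/27)*d + (8/135)*d^2)*z)^2*z^2) + (-2748)*((a - ((-2/11) + (-6/55)*d + (3/55)*d^2)*b + ((-2/27) + (-4/27)*d + (8/135)*d^2)*z)^2*(b + ((22/27) + (8/27)*d + (4/27)*d^2)*z)*z) + (-351)*((a - ((-2/11) + (-6/55)*d + (3/55)*d^2)*b + ((-2/27) + (-4/27)*d + (8/135)*d^2)*z)^2*(b + ((22/27) + (8/27)*d + (4/27)*d^2)*z)^2) + (1480)*((a - ((-2/11) + (-6/55)*d + (3/55)*d^2)*b + ((-2/27) + (-4/27)*d + (8/135)*d^2)*z)^3*z) + (180)*((a - ((-2/11) + (-6/55)*d + (3/55)*d^2)*b + ((-2/27) + (-4/27)*d + (8/135)*d^2)*z)^3*(b + ((22/27) + (8/27)*d + (4/27)*d^2)*z)) + (900)*((a - ((-2/11) + (-6/55)*d + (3/55)*d^2)*b + ((-2/27) + (-4/27)*d + (8/135)*d^2)*z)^4) =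
    a^2*(((-4800) + (-1200)*d + (-192)*d^2)*z^2 + z*(((1360) + (-480)*d + (240)*d^2)*a+((14400/11) + (-11952/11)*d + (-3528/11)*d^2)*b) + (((900) + (0)*d + (0)*d^2)*a^2+((9180/11) + (4320/11)*d + (-2160/11)*d^2)*(a*b)+((-203391/121) + (81648/121)*d + (-8748/121)*d^2)*b^2)) + a*b^2*(((110160/121) + (16200/121)*d + (-101088/605)*d^2)*z+((-1487160/1331) + (-34992/6655)*d + (835434/6655)*d^2)*b) + b^3*(((-307152/1331) + (217728/1331)*d + (-23328/1331)*d^2)*z+((1522152/14641) + (-1410615/14641)*d + (9080424/366025)*d^2)*b) := by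
  linear_combination ((256/27)*z^4 + (-256/675)*z^4*d^3 + (-128/11)*b*z^3*d + (128/275)*b*z^3*d^4 + (-1152/121)*b^2*z^2 + (1728/275)*b^2*z^2*d + (-1008/3025)*b^2*z^2*d^2 + (4608/3025)*b^2*z^2*d^3 + (-1728/3025)*b^2*z^2*d^4 + (144/3025)*b^2*z^2*d^5 + (-864/3025)*b^3*z + (241056/33275)*b^3*z*d + (-24624/33275)*b^3*z*d^2 + (-32616/33275)*b^3*z*d^3 + (10368/33275)*b^3*z*d^4 + (-1296/33275)*b^3*z*d^5 + (1230552/366025)*b^4 + (-1212327/366025)*b^4*d + (55404/73205)*b^4*d^2 + (20412/366025)*b^4*d^3 + (-23328/366025)*b^4*d^4 + (2916/366025)*b^4*d^5 + (-256/15)*a*z^3*d + (-128/15)*a*z^3*d^2 + (1632/55)*a*b*z^2 + (-768/55)*a*b*z^2*d + (192/11)*a*b*z^2*d^2 + (-96/55)*a*b*z^2*d^3 + (7344/121)*a*b^2*z + (1728/55)*a*b^2*z*d + (-7776/605)*a*b^2*z*d^2 + (1296/605)*a*b^2*z*d^3 + (-264384/6655)*a*b^3 + (2916/6655)*a*b^3*d + (23328/6655)*a*b^3*d^2 + (-3888/6655)*a*b^3*d^3 + (-128)*a^2*z^2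 + (16)*a^2*z^2*d + (1728/11)*a^2*b*z + (-432/11)*a^2*b*z*d + (-7776/121)*a^2*b^2 + (1944/121)*a^2*b^2*d)*hd

theorem eval_F0 (v : V) : eval v F0 = (144)*(v 2^4) + (-1104)*(v 1*v 2^3) + (1012)*(v 1^2*v 2^2) + (-328)*(v 1^3*v 2) + (36)*(v 1^4) + (624)*(v 0*v 2^3) + (-1424)*(v 0*v 1*v 2^2) + (516)*(v 0*v 1^2*v 2) + (-36)*(v 0*v 1^3) + (1204)*(v 0^2*v 2^2) + (-2748)*(v 0^2*v 1*v 2) + (-351)*(v 0^2*v 1^2) + (1480)*(v 0^3*v 2) + (180)*(v 0^3*v 1) + (900)*(v 0^4) := by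
  simp [F0]; ring

/-- the three cusps -/
noncomputable def cu (d : ℂ) : V := ![((-2/27) + (-4/27)*d + (8/135)*d^2), ((22/27) + (8/27)*d + (4/27)*d^2), 1]

noncomputable def bP (d : ℂ) : R := X 1 - C ((22/27) + (8/27)*d + (4/27)*d^2) * X 2
noncomputable def aP (d : ℂ) : R := X 0 - C ((-2/27) + (-4/27)*d + (8/135)*d^2) * X 2 + C ((-2/11) + (-6/55)*d + (3/55)*d^2) * bP d

theorem cuspT_cu (d : ℂ) (hd : d ^ 3 = 25) : CuspT F0 (cu d) := by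
  refine ⟨aP d, bP d,
    C ((-4800) + (-1200)*d + (-192)*d^2) * X 2 ^ 2 + X 2 * (C ((1360) + (-480)*d + (240)*d^2) * aP d + C ((14400/11) + (-11952/11)*d + (-3528/11)*d^2) * bP d) + (C ((900) + (0)*d + (0)*d^2) * aP d ^ 2 + C ((9180/11) + (4320/11)*d + (-2160/11)*d^2) * (aP d * bP d) + C ((-203391/121) + (81648/121)*d + (-8748/121)*d^2) * bP d ^ 2),
    C ((110160/121) + (16200/121)*d + (-101088/605)*d^2) * X 2 + C ((-1487160/1331) + (-34992/6655)*d + (835434/6655)*d^2) * bP d,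
    C ((-307152/1331) + (217728/1331)*d + (-23328/1331)*d^2) * X 2 + C ((1522152/14641) + (-1410615/14641)*d + (9080424/366025)*d^2) * bP d, ?_, ?_, ?_, ?_, ?_, ⟨![-((-2/11) + (-6/55)*d + (3/55)*d^2), 1, 0], ?_, ?_⟩, ⟨![1, 0, 0], ?_⟩⟩
  · refine MvPolynomial.funext fun v => ?_
    have h := key0 d (eval v (aP d)) (eval v (bP d)) (v 2) hd
    have hb : eval v (bP d) = v 1 - ((22/27) + (8/27)*d + (4/27)*d^2) * v 2 := by simp [bP]
    have ha : eval v (aP d) = v 0 - ((-2/27) + (-4/27)*d + (8/135)*d^2) * v 2 + ((-2/11) + (-6/55)*d + (3/55)*d^2) * eval v (bP d) := by simp [aP]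
    have e0 : v 0 = eval v (aP d) - ((-2/11) + (-6/55)*d + (3/55)*d^2) * eval v (bP d) + ((-2/27) + (-4/27)*d + (8/135)*d^2) * v 2 := by rw [ha]; ring
    have e1 : v 1 = eval v (bP d) + ((22/27) + (8/27)*d + (4/27)*d^2) * v 2 := by rw [hb]; ring
    rw [eval_F0]
    simp only [map_add, map_mul, map_pow, eval_C, eval_X]
    rw [← h, ← e0, ← e1]
  · simp [aP, bP, cu]
  · simp [bP, cu]
  · simp [aP, bP, cu]
    intro h
    have : (1:ℂ) = 0 := by linear_combination ((-1/4356) + (7/108900)*d + (-1/145200)*d^2) * h + (-((-37/9075)+(4/3025)*d)) * hd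
    exact one_ne_zero this
  · simp [bP, cu]
    intro h
    have : (1:ℂ) = 0 := by linear_combination ((11/3888) + (1/972)*d + (1/1944)*d^2) * h + (-((8/121)+(-12/1331)*d)) * hd
    exact one_ne_zero this
  · simp [dd, aP, bP, Fin.sum_univ_three, pderiv_X, Derivation.leibniz]
    ring
  · simp [dd, bP, Fin.sum_univ_three, pderiv_X, Derivation.leibniz]
  · simp [dd, aP, bP, Fin.sum_univ_three, pderiv_X, Derivation.leibniz]

end Pool.Agent.Helper16.Cusp
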