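import Pool.Agent.Helper16.Cusp.Base1

/-! The quartic: tangencies with the four lines, smoothness along the diagonal, and the level. -/

namespace Pool.Agent.Helper16.Cusp

open MvPolynomial

theorem om3 : om ^ 3 = 1 := by
  have := Complex.isPrimitiveRoot_exp 3 (by norm_num)
  have h := this.pow_eq_one
  simpa [om] using h

theorem om_ne : om ≠ 1 := by
  have := Complex.isPrimitiveRoot_exp 3 (by norm_num)
  have h := this.ne_one (by norm_num)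
  simpa [om] using h

theorem tan_x : TanT F0 (X 0) ![0, 3, 1] := by
  refine ⟨624 * (X 2 ^ 3) - 1424 * (X 1 * X 2 ^ 2) + 516 * (X 1 ^ 2 * X 2) - 36 * (X 1 ^ 3) + 1204 * (X 0 * X 2 ^ 2) - 2748 * (X 0 * X 1 * X 2) - 351 * (X 0 * X 1 ^ 2) + 1480 * (X 0 ^ 2 * X 2) + 180 * (X 0 ^ 2 * X 1) + 900 * (X 0 ^ 3),
    X 1 - C 3 * X 2, 4 * (9 * X 1 ^ 2 - 28 * (X 1 * X 2) + 4 * X 2 ^ 2), ?_, ?_, ?_, ?_, ?_, ⟨![0, 1, 0], ?_, ?_⟩⟩
  · simp only [F0, map_ofNat]; ring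
  · simp
  · simp; try norm_num
  · simp; try norm_num
  · simp; try norm_num
  · simp [dd, Fin.sum_univ_three, pderiv_X]
  · simp [dd, Fin.sum_univ_three, pderiv_X, Derivation.leibniz]; try norm_num

theorem tan_y : TanT F0 (X 1) ![-3, 0, 5] := by
  refine ⟨-1104 * (X 2 ^ 3) + 1012 * (X 1 * X 2 ^ 2) - 328 * (X 1 ^ 2 * X 2) + 36 * (X 1 ^ 3) - 1424 * (X 0 * X 2 ^ 2) + 516 * (X 0 * X 1 * X 2) - 36 * (X 0 * X 1 ^ 2) - 2748 * (X 0 ^ 2 * X 2) - 351 * (X 0 ^ 2 * X 1) + 180 * (X 0 ^ 3),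
    C 5 * X 0 + C 3 * X 2, 36 * X 0 ^ 2 + 16 * (X 0 * X 2) + 16 * X 2 ^ 2, ?_, ?_, ?_, ?_, ?_, ⟨![1, 0, 0], ?_, ?_⟩⟩
  · simp only [F0, map_ofNat]; ring
  · simp
  · simp; try norm_num
  · simp; try norm_num
  · simp; try norm_num
  · simp [dd, Fin.sum_univ_three, pderiv_X]
  · simp [dd, Fin.sum_univ_three, pderiv_X, Derivation.leibniz]; try norm_num

theorem tan_d : TanT F0 (X 0 - X 1) ![2, 2, 3] := by
  refine ⟨1104 * (X 2 ^ 3) - 1012 * (X 1 * X 2 ^ 2) + 328 * (X 1 ^ 2 * X 2) - 36 * (X 1 ^ 3) + 412 * (X 0 * X 2 ^ 2) - 188 * (X 0 * X 1 * X 2) + 2560 * (X 0 ^ 2 * X 2) + 351 * (X 0 ^ 2 * X 1) + 171 * (X 0 ^ 3),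
    C 2 * X 2 - C 3 * X 0, 36 * X 2 ^ 2 - 12 * (X 0 * X 2) + 81 * X 0 ^ 2, ?_, ?_, ?_, ?_, ?_, ⟨![0, 0, 1], ?_, ?_⟩⟩
  · simp only [F0, map_ofNat]; ring
  · simp
  · simp; try norm_num
  · simp; try norm_num
  · simp; try norm_num
  · simp [dd, Fin.sum_univ_three, pderiv_X]
  · simp [dd, Fin.sum_univ_three, pderiv_X, Derivation.leibniz]; try norm_num

theorem tan_z1 : TanT F0 (X 2) ![-1, 2, 0] := by
  refine ⟨144 * (X 2 ^ 3) - 1104 * (X 1 * X 2 ^ 2) + 1012 * (X 1 ^ 2 * X 2) - 328 * (X 1 ^ 3) + 624 * (X 0 * X 2 ^ 2) - 1424 * (X 0 * X 1 * X 2) + 516 * (X 0 * X 1 ^ 2) + 1204 * (X 0 ^ 2 * X 2) - 2748 * (X 0 ^ 2 * X 1) + 1480 * (X 0 ^ 3),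
    X 1 + C 2 * X 0, 9 * (C 2 * X 1 - C 5 * X 0) ^ 2, ?_, ?_, ?_, ?_, ?_, ⟨![0, 1, 0], ?_, ?_⟩⟩
  · simp only [F0, map_ofNat]; ring
  · simp
  · simp; try norm_num
  · simp; try norm_num
  · simp; try norm_num
  · simp [dd, Fin.sum_univ_three, pderiv_X]
  · simp [dd, Fin.sum_univ_three, pderiv_X, Derivation.leibniz]; try norm_num

theorem tan_z2 : TanT F0 (X 2) ![2, 5, 0] := by
  refine ⟨144 * (X 2 ^ 3) - 1104 * (X 1 * X 2 ^ 2) + 1012 * (X 1 ^ 2 * X 2) - 328 * (X 1 ^ 3) + 624 * (X 0 * X 2 ^ 2) - 1424 * (X 0 * X 1 * X 2) + 516 * (X 0 * X 1 ^ 2) + 1204 * (X 0 ^ 2 * X 2) - 2748 * (X 0 ^ 2 * X 1) + 1480 * (X 0 ^ 3),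
    C 2 * X 1 - C 5 * X 0, 9 * (X 1 + C 2 * X 0) ^ 2, ?_, ?_, ?_, ?_, ?_, ⟨![0, 1, 0], ?_, ?_⟩⟩
  · simp only [F0, map_ofNat]; ring
  · simp
  · simp; try norm_num
  · simp; try norm_num
  · simp; try norm_num
  · simp [dd, Fin.sum_univ_three, pderiv_X]
  · simp [dd, Fin.sum_univ_three, pderiv_X, Derivation.leibniz]; try norm_num

/-- the three cube roots of 25 -/
theorem exists_roots : ∃ r : Fin 3 → ℂ, Function.Injective r ∧ ∀ i, r i ^ 3 = 25 := by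
  obtain ⟨r, hr⟩ := IsAlgClosed.exists_pow_nat_eq (25 : ℂ) (n := 3) (by norm_num)
  have hr0 : r ≠ 0 := by rintro rfl; norm_num at hr
  have hp := Complex.isPrimitiveRoot_exp 3 (by norm_num)
  refine ⟨fun i => r * Complex.exp (2 * Real.pi * Complex.I / 3) ^ (i : ℕ), ?_, ?_⟩
  · intro i j h
    have h' := mul_left_cancel₀ hr0 h
    exact Fin.ext (hp.pow_inj i.2 j.2 (by simpa using h'))
  · intro i
    have h3 := hp.pow_eq_one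
    rw [mul_pow, hr, ← pow_mul, mul_comm (i : ℕ) 3, pow_mul]
    have : Complex.exp (2 * Real.pi * Complex.I / 3) ^ 3 = 1 := by simpa using h3
    rw [this]; simp

theorem cu0 (d : ℂ) (hd : d ^ 3 = 25) : cu d 0 ≠ 0 := by
  intro h
  replace h : ((-2/27) + (-4/27)*d + (8/135)*d^2) = 0 := h
  have : (1:ℂ) = 0 := by
    linear_combination ((-1107/2) + (-189)*d + (-324/5)*d^2) * h + (-((-8/5)+(-96/25)*d)) * hd
  exact one_ne_zero this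

theorem cu1 (d : ℂ) (hd : d ^ 3 = 25) : cu d 1 ≠ 0 := by
  intro h
  replace h : ((22/27) + (8/27)*d + (4/27)*d^2) = 0 := h
  have : (1:ℂ) = 0 := by
    linear_combination ((-2133/2662) + (756/1331)*d + (-81/1331)*d^2) * h + (-((8/121)+(-12/1331)*d)) * hd
  exact one_ne_zero this

theorem cu01 (d : ℂ) (hd : d ^ 3 = 25) : (cu d 0 - cu d 1) ≠ 0 := by
  intro h
  replace h : ((-2/27) + (-4/27)*d + (8/135)*d^2) - ((22/27) + (8/27)*d + (4/27)*d^2) = 0 := h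
  have : (1:ℂ) = 0 := by
    linear_combination ((9/32) + (9/32)*d + (-27/160)*d^2) * h + (-((1/20)+(3/200)*d)) * hd
  exact one_ne_zero this

theorem cuQ (d : ℂ) (hd : d ^ 3 = 25) : Q0 (cu d) := by
  intro h
  have h2 : (((-2/27) + (-4/27)*d + (8/135)*d^2) - ((22/27) + (8/27)*d + (4/27)*d^2) + 1) ^ 3 + 27 * (((-2/27) + (-4/27)*d + (8/135)*d^2) * ((22/27) + (8/27)*d + (4/27)*d^2) * 1) = 0 := h
  have : (1:ℂ) = 0 := by
    linear_combination ((-8949933/80117999) + (-1565892/80117999)*d + (323676/80117999)*d^2) * h2 - ((2621808/80117999)*d^0 + (-37170816/2002949975)*d^1 + (-262464/80117999)*d^2 + (10413568/10014749875)*d^3 + (-288768/10014749875)*d^4 + (-28416/10014749875)*d^5) * hd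
  exact one_ne_zero this

theorem projInj_one (v : V) : ProjInj (fun _ : Fin 1 => v) := fun i j _ _ => Subsingleton.elim i j

theorem cusps0 : ∃ c : Fin 3 → V, ProjInj c ∧ ∀ i, CuspT F0 (c i) ∧ c i 0 ≠ 0 ∧ c i 1 ≠ 0 ∧
    c i 2 ≠ 0 ∧ c i 0 ≠ c i 1 ∧ Q0 (c i) := by
  obtain ⟨r, hr, h25⟩ := exists_roots
  refine ⟨fun i => cu (r i), ?_, fun i => ⟨cuspT_cu _ (h25 i), cu0 _ (h25 i), cu1 _ (h25 i), ?_,
    sub_ne_zero.1 (cu01 _ (h25 i)), cuQ _ (h25 i)⟩⟩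
  · intro i j t h
    have h2 : (1 : ℂ) = t * 1 := by simpa [cu] using congrFun h 2
    have ht : t = 1 := by linear_combination -h2
    subst ht
    have h0 : cu (r i) 0 = 1 * cu (r j) 0 := by simpa using congrFun h 0
    have h1 : cu (r i) 1 = 1 * cu (r j) 1 := by simpa using congrFun h 1
    apply hr
    have e (d : ℂ) : d = -(15/4) * (cu d 0 - 2/5 * cu d 1 + 2/5) := by
      simp only [cu, Matrix.cons_val_zero, Matrix.cons_val_one]; ring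
    rw [e (r i), e (r j), h0, h1]; ring
  · simp [cu]

theorem tz0 : TZ F0 2 Q0 := by
  refine ⟨![![-1, 2, 0], ![2, 5, 0]], ?_, ?_⟩
  · intro i j t h
    fin_cases i <;> fin_cases j <;> try rfl
    · exfalso
      have h0 : (-1 : ℂ) = t * 2 := by simpa using congrFun h 0
      have h1 : (2 : ℂ) = t * 5 := by simpa using congrFun h 1
      have : (9 : ℂ) = 0 := by linear_combination 2 * h1 - 5 * h0
      norm_num at this
    · exfalso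
      have h0 : (2 : ℂ) = t * (-1) := by simpa using congrFun h 0
      have h1 : (5 : ℂ) = t * 2 := by simpa using congrFun h 1
      have : (9 : ℂ) = 0 := by linear_combination h1 + 2 * h0
      norm_num at this
  · intro i
    fin_cases i
    · refine ⟨tan_z1, ?_, ?_, ?_, ?_, ?_⟩ <;> simp [Q0] <;> norm_num
    · refine ⟨tan_z2, ?_, ?_, ?_, ?_, ?_⟩ <;> simp [Q0] <;> norm_num

theorem F0_C : F0 = C 144 * (X 0 ^ 0 * X 1 ^ 0 * X 2 ^ 4) + C (-1104) * (X 0 ^ 0 * X 1 ^ 1 * X 2 ^ 3) + C 1012 * (X 0 ^ 0 * X 1 ^ 2 * X 2 ^ 2) + C (-328) * (X 0 ^ 0 * X 1 ^ 3 * X 2 ^ 1) + C 36 * (X 0 ^ 0 * X 1 ^ 4 * X 2 ^ 0) + C 624 * (X 0 ^ 1 * X 1 ^ 0 * X 2 ^ 3) + C (-1424) * (X 0 ^ 1 * X 1 ^ 1 * X 2 ^ 2) + C 516 * (X 0 ^ 1 * X 1 ^ 2 * X 2 ^ 1) + C (-36) * (X 0 ^ 1 * X 1 ^ 3 * X 2 ^ 0) + C 1204 * (X 0 ^ 2 * X 1 ^ 0 * X 2 ^ 2) + C (-2748) * (X 0 ^ 2 * X 1 ^ 1 * X 2 ^ 1)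 + C (-351) * (X 0 ^ 2 * X 1 ^ 2 * X 2 ^ 0) + C 1480 * (X 0 ^ 3 * X 1 ^ 0 * X 2 ^ 1) + C 180 * (X 0 ^ 3 * X 1 ^ 1 * X 2 ^ 0) + C 900 * (X 0 ^ 4 * X 1 ^ 0 * X 2 ^ 0) := by
  simp only [F0, map_ofNat, map_neg]; ring

theorem pd0 (v : V) : eval v (pderiv 0 F0) = 624 * (v 2 ^ 3) - 1424 * (v 1 * v 2 ^ 2) + 516 * (v 1 ^ 2 * v 2) - 36 * (v 1 ^ 3) + 2408 * (v 0 * v 2 ^ 2) - 5496 * (v 0 * v 1 * v 2) - 702 * (v 0 * v 1 ^ 2) + 4440 * (v 0 ^ 2 * v 2) + 540 * (v 0 ^ 2 * v 1) + 3600 * (v 0 ^ 3) := by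
  rw [F0_C]
  simp [Derivation.leibniz, Derivation.leibniz_pow, pderiv_X]
  ring

theorem pd1 (v : V) : eval v (pderiv 1 F0) = -1104 * (v 2 ^ 3) + 2024 * (v 1 * v 2 ^ 2) - 984 * (v 1 ^ 2 * v 2) + 144 * (v 1 ^ 3) - 1424 * (v 0 * v 2 ^ 2) + 1032 * (v 0 * v 1 * v 2) - 108 * (v 0 * v 1 ^ 2) - 2748 * (v 0 ^ 2 * v 2) - 702 * (v 0 ^ 2 * v 1) + 180 * (v 0 ^ 3) := by
  rw [F0_C]
  simp [Derivation.leibniz, Derivation.leibniz_pow, pderiv_X]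
  ring

theorem pd2 (v : V) : eval v (pderiv 2 F0) = 576 * (v 2 ^ 3) - 3312 * (v 1 * v 2 ^ 2) + 2024 * (v 1 ^ 2 * v 2) - 328 * (v 1 ^ 3) + 1872 * (v 0 * v 2 ^ 2) - 2848 * (v 0 * v 1 * v 2) + 516 * (v 0 * v 1 ^ 2) + 2408 * (v 0 ^ 2 * v 2) - 2748 * (v 0 ^ 2 * v 1) + 1480 * (v 0 ^ 3) := by
  rw [F0_C]
  simp [Derivation.leibniz, Derivation.leibniz_pow, pderiv_X]
  ring

theorem smooth0 : SmoothDiag F0 := by
  intro v hv h01 hF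
  rw [eval_F0, ← h01] at hF
  have hF' : (2 * v 2 - 3 * v 0) ^ 2 * (36 * v 2 ^ 2 - 12 * (v 0 * v 2) + 81 * v 0 ^ 2) = 0 := by
    linear_combination hF
  have hx : v 0 ≠ 0 := by
    intro h
    apply hv
    have hz : v 2 = 0 := by
      rw [h] at hF'
      have : (v 2) ^ 4 = 0 := by linear_combination (1/144) * hF'
      exact pow_eq_zero_iff (by norm_num) |>.1 this
    ext i; fin_cases i
    · exact h
    · exact h01 ▸ h
    · exact hz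
  have hz : v 2 ≠ 0 := by
    intro h
    rw [h] at hF'
    apply hx
    have : (v 0) ^ 4 = 0 := by linear_combination (1/729) * hF'
    exact pow_eq_zero_iff (by norm_num) |>.1 this
  refine ⟨hx, hz, ?_⟩
  rcases mul_eq_zero.1 hF' with h | h
  · have h2 : 2 * v 2 - 3 * v 0 = 0 := pow_eq_zero_iff (by norm_num) |>.1 h
    have h3 : v 2 = 3 / 2 * v 0 := by linear_combination (1/2) * h2
    refine ⟨0, ?_⟩
    rw [pd0, ← h01, h3]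
    intro h4
    have : (v 0) ^ 3 = 0 := by linear_combination (1/6912) * h4
    exact hx (pow_eq_zero_iff (by norm_num) |>.1 this)
  · refine ⟨2, ?_⟩
    intro h4
    rw [pd2, ← h01] at h4
    have h5 : (2 * v 2 - 3 * v 0) ^ 2 * (72 * v 2 - 12 * v 0) = 0 := by
      linear_combination h4 - 4 * (2 * v 2 - 3 * v 0) * h
    rcases mul_eq_zero.1 h5 with h6 | h6
    · have h2 : 2 * v 2 - 3 * v 0 = 0 := pow_eq_zero_iff (by norm_num) |>.1 h6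
      have h3 : v 2 = 3 / 2 * v 0 := by linear_combination (1/2) * h2
      rw [h3] at h
      have : (v 0) ^ 2 = 0 := by linear_combination (1/144) * h
      exact hx (pow_eq_zero_iff (by norm_num) |>.1 this)
    · have h3 : v 0 = 6 * v 2 := by linear_combination (-1/12) * h6
      rw [h3] at h
      have : (v 2) ^ 2 = 0 := by linear_combination (1/2880) * h
      exact hz (pow_eq_zero_iff (by norm_num) |>.1 this)

theorem hC (n : ℕ) (i j k : ℕ) (h : i + j + k = 4) :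
    ((n : R) * (X 0 ^ i * X 1 ^ j * X 2 ^ k)).IsHomogeneous 4 := by
  have h0 : ((n : R)).IsHomogeneous 0 := by
    have := isHomogeneous_C (Fin 3) (n : ℂ)
    simpa using this
  have h1 := ((((isHomogeneous_X ℂ (0 : Fin 3)).pow i).mul ((isHomogeneous_X ℂ (1 : Fin 3)).pow j)).mul
    ((isHomogeneous_X ℂ (2 : Fin 3)).pow k))
  have h2 := h0.mul h1
  convert h2 using 1
  omega

theorem homog0 : F0.IsHomogeneous 4 := by
  have e : F0 = ((144 : ℕ) : R) * (X 0 ^ 0 * X 1 ^ 0 * X 2 ^ 4) + ((1012 : ℕ) : R) * (X 0 ^ 0 * X 1 ^ 2 * X 2 ^ 2) + ((36 : ℕ) : R) * (X 0 ^ 0 * X 1 ^ 4 * X 2 ^ 0) + ((624 : ℕ) : R) * (X 0 ^ 1 * X 1 ^ 0 * X 2 ^ 3) + ((516 : ℕ) : R) * (X 0 ^ 1 * X 1 ^ 2 * X 2 ^ 1) + ((1204 : ℕ) : R) * (X 0 ^ 2 * X 1 ^ 0 * X 2 ^ 2) + ((1480 : ℕ) : R) * (X 0 ^ 3 * X 1 ^ 0 * X 2 ^ 1) + ((180 : ℕ) : R) * (X 0 ^ 3 * X 1 ^ 1 * X 2 ^ 0) + ((900 : ℕ) : R) *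 (X 0 ^ 4 * X 1 ^ 0 * X 2 ^ 0) - ((1104 : ℕ) : R) * (X 0 ^ 0 * X 1 ^ 1 * X 2 ^ 3) - ((328 : ℕ) : R) * (X 0 ^ 0 * X 1 ^ 3 * X 2 ^ 1) - ((1424 : ℕ) : R) * (X 0 ^ 1 * X 1 ^ 1 * X 2 ^ 2) - ((36 : ℕ) : R) * (X 0 ^ 1 * X 1 ^ 3 * X 2 ^ 0) - ((2748 : ℕ) : R) * (X 0 ^ 2 * X 1 ^ 1 * X 2 ^ 1) - ((351 : ℕ) : R) * (X 0 ^ 2 * X 1 ^ 2 * X 2 ^ 0) := by
    simp only [F0]; push_cast; ring
  rw [e]
  repeat first | exact hC _ _ _ _ (by norm_num) | refine IsHomogeneous.sub ?_ ?_ | refine IsHomogeneous.add ?_ ?_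

theorem lev0 : Lev F0 4 3 1 Q0 where
  homog := homog0
  smooth := smooth0
  cusp := cusps0
  tx := ⟨fun _ => ![0, 3, 1], projInj_one _, fun _ => ⟨tan_x, by simp, by simp, by simp, by
    simp [Q0]; norm_num⟩⟩
  ty := ⟨fun _ => ![-3, 0, 5], projInj_one _, fun _ => ⟨tan_y, by simp, by simp, by simp, by
    simp [Q0]; norm_num⟩⟩
  td := ⟨fun _ => ![2, 2, 3], projInj_one _, fun _ => ⟨tan_d, by simp, by simp, by simp, by simp, by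
    simp [Q0]; norm_num⟩⟩

end Pool.Agent.Helper16.Cusp
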