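import Mathlib

/-!
Ordinary cusps of plane curves (the final predicate), and the local normal forms used in the tower.
-/

namespace Pool.Agent.Helper16.Cusp

open MvPolynomial

/-- The Hessian matrix of `F` at the vector `v`. -/
noncomputable def hess (F : MvPolynomial (Fin 3) ℂ) (v : Fin 3 → ℂ) : Matrix (Fin 3) (Fin 3) ℂ :=
  Matrix.of fun i j : Fin 3 => eval v (pderiv i (pderiv j F))

/-- The third derivative of `F` at `v` in the direction `u`. -/
noncomputable def cubic (F : MvPolynomial (Fin 3) ℂ) (v u : Fin 3 → ℂ) : ℂ :=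
  ∑ i : Fin 3, ∑ j : Fin 3, ∑ k : Fin 3,
    u i * u j * u k * eval v (pderiv i (pderiv j (pderiv k F)))

/-- The curve `F = 0` has an ordinary cusp (an `A₂` singularity) at the point with the vector `v` of
homogeneous coordinates: `F` and its gradient vanish at `v`, the Hessian has rank one, and the third
derivative does not vanish on its kernel. -/
def IsCuspVec (F : MvPolynomial (Fin 3) ℂ) (v : Fin 3 → ℂ) : Prop :=
  eval v F = 0 ∧ (∀ i : Fin 3, eval v (pderiv i F) = 0) ∧ (hess F v).rank = 1 ∧
    ∃ u : Fin 3 → ℂ, (hess F v).mulVec u = 0 ∧ cubic F v u ≠ 0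

/-- The plane curve `F = 0` has an ordinary cusp at the point `p` of the projective plane. -/
def IsOrdinaryCusp (F : MvPolynomial (Fin 3) ℂ) (p : Projectivization ℂ (Fin 3 → ℂ)) : Prop :=
  IsCuspVec F p.rep

end Pool.Agent.Helper16.Cusp
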