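import Pool.Agent.Helper16.Cusp.Loc

/-! The starting quartic (three cusps) and the special conditions of the first two steps. -/

namespace Pool.Agent.Helper16.Cusp

open MvPolynomial

/-- The starting curve: a quartic with three cusps. -/
noncomputable def F0 : R :=
  144 * X 2 ^ 4 - 1104 * (X 1 * X 2 ^ 3) + 1012 * (X 1 ^ 2 * X 2 ^ 2) - 328 * (X 1 ^ 3 * X 2)
    + 36 * X 1 ^ 4 + 624 * (X 0 * X 2 ^ 3) - 1424 * (X 0 * X 1 * X 2 ^ 2)
    + 516 * (X 0 * X 1 ^ 2 * X 2) - 36 * (X 0 * X 1 ^ 3) + 1204 * (X 0 ^ 2 * X 2 ^ 2)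
    - 2748 * (X 0 ^ 2 * X 1 * X 2) - 351 * (X 0 ^ 2 * X 1 ^ 2) + 1480 * (X 0 ^ 3 * X 2)
    + 180 * (X 0 ^ 3 * X 1) + 900 * X 0 ^ 4

/-- the condition on the special points of the quartic -/
def Q0 (v : V) : Prop := (v 0 - v 1 + v 2) ^ 3 + 27 * (v 0 * v 1 * v 2) ≠ 0

/-- the condition on the special points of the curve of degree 12 -/
def Q1 (v : V) : Prop := v 2 ≠ 3 * v 0

/-- the curve of degree 12 -/
noncomputable def F1 : R := pull (om ^ 2 - 1) 0 F0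

end Pool.Agent.Helper16.Cusp
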