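import Pool.Agent.Helper16.Cusp.Defs

/-! Local normal forms and the level structure of the tower. -/

namespace Pool.Agent.Helper16.Cusp

open MvPolynomial

abbrev R := MvPolynomial (Fin 3) ℂ
abbrev V := Fin 3 → ℂ

/-- directional derivative of `a` at `v` along `u` -/
noncomputable def dd (a : R) (v u : V) : ℂ := ∑ i : Fin 3, u i * eval v (pderiv i a)

/-- cusp normal form at `v` -/
def CuspT (F : R) (v : V) : Prop :=
  ∃ a b α β γ : R, F = a ^ 2 * α + a * b ^ 2 * β + b ^ 3 * γ ∧ eval v a = 0 ∧ eval v b = 0 ∧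
    eval v α ≠ 0 ∧ eval v γ ≠ 0 ∧ (∃ u : V, dd a v u = 0 ∧ dd b v u ≠ 0) ∧ ∃ w : V, dd a v w ≠ 0

/-- simple tangency of the curve `F = 0` with the line `ℓ = 0` at `v` -/
def TanT (F ℓ : R) (v : V) : Prop :=
  ∃ α b β : R, F = ℓ * α + b ^ 2 * β ∧ eval v ℓ = 0 ∧ eval v b = 0 ∧ eval v α ≠ 0 ∧
    eval v β ≠ 0 ∧ ∃ u : V, dd ℓ v u = 0 ∧ dd b v u ≠ 0

/-- a primitive cube root of unity -/
noncomputable def om : ℂ := Complex.exp (2 * Real.pi * Complex.I / 3)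

/-- the three linear forms of a step -/
noncomputable def lin (lam mu : ℂ) : Fin 3 → R :=
  ![X 0 + C om * X 1, C (om ^ 2) * X 0 + C om * X 1, X 2 + C lam * X 0 + C mu * X 1]

/-- pull back of a curve under `(X₀,X₁,X₂) ↦ (ℓ₀³, ℓ₁³, ℓ₂³)` -/
noncomputable def pull (lam mu : ℂ) (F : R) : R := aeval (fun i => lin lam mu i ^ 3) F

/-- the underlying map on vectors -/
noncomputable def phi (lam mu : ℂ) (v : V) : V := fun i => eval v (lin lam mu i) ^ 3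

/-- the vectors of a family are pairwise non-proportional -/
def ProjInj {ι : Type} (c : ι → V) : Prop := ∀ i j, ∀ t : ℂ, c i = t • c j → i = j

/-- `F` is smooth along the line `x = y` (and does not meet it on `x = 0` or on `z = 0`) -/
def SmoothDiag (F : R) : Prop :=
  ∀ v : V, v ≠ 0 → v 0 = v 1 → eval v F = 0 → v 0 ≠ 0 ∧ v 2 ≠ 0 ∧ ∃ i, eval v (pderiv i F) ≠ 0

/-- A level of the tower: a curve `F` of degree `D` with `κ` known cusps off the lines `xyz(x-y)=0`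
and `T` known simple tangencies with each of the lines `x = 0`, `y = 0`, `x = y`; `Q` is an extra
property of all these points. -/
structure Lev (F : R) (D κ T : ℕ) (Q : V → Prop) : Prop where
  homog : F.IsHomogeneous D
  smooth : SmoothDiag F
  cusp : ∃ c : Fin κ → V, ProjInj c ∧ ∀ i, CuspT F (c i) ∧ c i 0 ≠ 0 ∧ c i 1 ≠ 0 ∧ c i 2 ≠ 0 ∧
    c i 0 ≠ c i 1 ∧ Q (c i)
  tx : ∃ c : Fin T → V, ProjInj c ∧ ∀ i, TanT F (X 0) (c i) ∧ c i 0 = 0 ∧ c i 1 ≠ 0 ∧ c i 2 ≠ 0 ∧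
    Q (c i)
  ty : ∃ c : Fin T → V, ProjInj c ∧ ∀ i, TanT F (X 1) (c i) ∧ c i 0 ≠ 0 ∧ c i 1 = 0 ∧ c i 2 ≠ 0 ∧
    Q (c i)
  td : ∃ c : Fin T → V, ProjInj c ∧ ∀ i, TanT F (X 0 - X 1) (c i) ∧ c i 0 ≠ 0 ∧ c i 1 ≠ 0 ∧
    c i 2 ≠ 0 ∧ c i 0 = c i 1 ∧ Q (c i)

/-- `τ` known simple tangencies with the line `z = 0` -/
def TZ (F : R) (τ : ℕ) (Q : V → Prop) : Prop :=
  ∃ c : Fin τ → V, ProjInj c ∧ ∀ i, TanT F (X 2) (c i) ∧ c i 0 ≠ 0 ∧ c i 1 ≠ 0 ∧ c i 2 = 0 ∧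
    c i 0 ≠ c i 1 ∧ Q (c i)

end Pool.Agent.Helper16.Cusp
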