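import Pool.Agent.Helper16.Cusp.Base2
import Pool.Agent.Helper83.Cusp.Vec
import Pool.Agent.Helper83.Cusp.Sqf
import Pool.Agent.Helper24.Cusp.GenericStep
import Pool.Agent.Helper3.Cusp.C7a
import Pool.Agent.Helper3.Cusp.C7aLev
import Pool.Agent.Helper89.Cusp.Step2

/-! Assembly of the tower of curves with many cusps. -/

namespace Pool.Agent.Helper16.Cusp
open MvPolynomial

/-- from a level to the projective curve with its cusps -/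
theorem Lev.out {F : R} {D κ T : ℕ} {Q : V → Prop} (hF : Lev F D κ T Q) :
    F.IsHomogeneous D ∧ Squarefree F ∧ ∃ S : Finset (Projectivization ℂ (Fin 3 → ℂ)),
      (∀ p ∈ S, IsOrdinaryCusp F p) ∧ S.card = κ := by
  refine ⟨hF.homog, hF.squarefree, ?_⟩
  obtain ⟨c, hc, h⟩ := hF.cusp
  obtain ⟨S, hS, hp⟩ := exists_finset hF.homog c hc
    (fun i => ⟨(h i).1, fun h0 => (h i).2.1 (by rw [h0]; rfl)⟩)
  exact ⟨S, hp, hS⟩

theorem tower (k : ℕ) : ∃ F : R, ∃ κ : ℕ, Lev F (4 * 3 ^ (k + 3)) κ (3 ^ (k + 3)) (fun _ => True) ∧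
    κ + 3 ^ (k + 3) = 386 * 9 ^ (k + 1) := by
  induction k with
  | zero =>
    obtain ⟨lam, mu, h2, z2⟩ := step2 (lev1 lev0 tz0) tz1 comp1 eval1
    obtain ⟨l, h3⟩ := generic_step h2 z2
    exact ⟨_, _, h3, rfl⟩
  | succ k ih =>
    obtain ⟨F, κ, hF, hκ⟩ := ih
    have z : TZ F 0 (fun _ => True) := ⟨fun i => i.elim0, fun i => i.elim0, fun i => i.elim0⟩
    obtain ⟨l, h⟩ := generic_step hF z
    refine ⟨pull l 0 F, 9 * κ + 6 * 3 ^ (k + 3) + 3 * 0, ?_, ?_⟩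
    · have e1 : 4 * 3 ^ (k + 1 + 3) = 3 * (4 * 3 ^ (k + 3)) := by ring
      have e2 : 3 ^ (k + 1 + 3) = 3 * 3 ^ (k + 3) := by ring
      rw [e1, e2]; exact h
    · have e1 : 386 * 9 ^ (k + 1 + 1) = 9 * (386 * 9 ^ (k + 1)) := by ring
      rw [e1, ← hκ]; ring

theorem main (k : ℕ) (hk : 3 ≤ k) : ∃ F : MvPolynomial (Fin 3) ℂ, F.IsHomogeneous (4 * 3 ^ k) ∧
    Squarefree F ∧ ∃ S : Finset (Projectivization ℂ (Fin 3 → ℂ)), (∀ p ∈ S, IsOrdinaryCusp F p) ∧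
      (S.card : ℝ) = 193 / 648 * (4 * 3 ^ k : ℝ) ^ 2 - 3 ^ k := by
  obtain ⟨k, rfl⟩ := Nat.exists_eq_add_of_le' hk
  obtain ⟨F, κ, hF, hκ⟩ := tower k
  obtain ⟨h1, h2, S, h3, h4⟩ := hF.out
  refine ⟨F, h1, h2, S, h3, ?_⟩
  rw [h4]
  have e : (κ : ℝ) + 3 ^ (k + 3) = 386 * 9 ^ (k + 1) := by exact_mod_cast hκ
  have e9 : (9 : ℝ) ^ (k + 1) = (3 ^ (k + 1)) ^ 2 := by
    rw [← pow_mul, mul_comm, pow_mul]; norm_num
  rw [e9] at e
  have e3 : (3 : ℝ) ^ (k + 3) = 9 * 3 ^ (k + 1) := by ring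
  rw [e3] at e ⊢
  linear_combination e

end Pool.Agent.Helper16.Cusp
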